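import Mathlib
import Pool.Agent.H33.BowlDefs

namespace Pool.Agent.Results.MP_eb4cdf_pr.Q1
open MeasureTheory Pool.Agent.H33.Bowl

def val (k : Fin 8) : ℕ := 100 + k.val

noncomputable def law : Measure ℝ :=
  (PMF.uniformOfFintype (Fin 8)).toMeasure.map (fun k => (val k : ℝ))

instance : IsProbabilityMeasure law :=
  Measure.isProbabilityMeasure_map (measurable_of_finite _).aemeasurable

def eqv : (Fin 8 × Fin 8 × Fin 8 × Fin 8 × Fin 8 × Fin 8) ≃ (Fin 2 × Fin 3 → Fin 8) where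
  toFun v p := ![![v.1, v.2.2.2.2.1, v.2.2.2.2.2], ![v.2.2.1, v.2.2.2.1, v.2.1]] p.1 p.2
  invFun κ := (κ (0,0), κ (1,2), κ (1,0), κ (1,1), κ (0,1), κ (0,2))
  left_inv v := rfl
  right_inv κ := by
    funext ⟨i, j⟩
    fin_cases i <;> fin_cases j <;> rfl

lemma ms_eq (x : Fin 2 × Fin 3 → ℝ) (s : Fin 3 → ℝ) (h0 : 0 ≤ x (0,0) / s 0)
    (h1 : 0 ≤ x (0,1) / s 1) :
    makespan x s = x (0,0) / s 0 + x (1,2) / s 2 +
      max (max (x (1,0) / s 0 + x (1,1) / s 1) (x (0,1) / s 1 + x (1,1) / s 1))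
        (x (0,1) / s 1 + x (0,2) / s 2) := by
  unfold makespan
  simp only [dep]
  simp only [max_self, zero_add, Nat.reduceLT, and_self, dite_true, Fin.zero_eta,
    Fin.mk_one, Fin.reduceFinMk]
  generalize x (0,0) / s 0 = e at *
  generalize x (1,2) / s 2 = f
  generalize x (1,0) / s 0 = a
  generalize x (1,1) / s 1 = b at *
  generalize x (0,1) / s 1 = c at *
  generalize x (0,2) / s 2 = d at *
  simp only [max_def]
  split_ifs <;> linarith

lemma F_eq (s : Fin 3 → ℝ) :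
    F 2 3 law s = (∑ v : Fin 8 × Fin 8 × Fin 8 × Fin 8 × Fin 8 × Fin 8,
      makespan (fun p => (val (eqv v p) : ℝ)) s) / 8 ^ 6 := by
  have hm : Measurable (fun x : Fin 2 × Fin 3 → ℝ => makespan x s) := by
    unfold makespan
    simp only [dep]
    simp
    fun_prop
  unfold F law
  rw [← Measure.pi_map_pi (fun _ => (measurable_of_finite _).aemeasurable),
    integral_map (measurable_of_finite _).aemeasurable hm.aestronglyMeasurable,
    integral_fintype (Integrable.of_finite), ← eqv.sum_comp, Finset.sum_div]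
  refine Finset.sum_congr rfl fun v _ => ?_
  simp [Measure.real, Measure.pi_singleton]
  ring

def A (a b c d : ℕ) : ℕ := if b + c ≤ a + b ∧ c + d ≤ a + b then a else if b + c ≤ c + d then d else 0
def B (a b c d : ℕ) : ℕ := if b + c ≤ a + b ∧ c + d ≤ a + b then b else if b + c ≤ c + d then c else b + c
def M (a b c d : ℕ) : ℕ := max (max (a * 166 + b * 167) (c * 167 + b * 167)) (c * 167 + d * 166)

lemma sumA : ∑ a, ∑ b, ∑ c, ∑ d, A (val a) (val b) (val c) (val d) = 347370 := by decide +kernel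
lemma sumB : ∑ a, ∑ b, ∑ c, ∑ d, B (val a) (val b) (val c) (val d) = 509658 := by decide +kernel
lemma sumM : ∑ a, ∑ b, ∑ c, ∑ d, M (val a) (val b) (val c) (val d) = 142829424 := by decide +kernel
lemma sumv : ∑ a, val a = 828 := by decide +kernel

lemma sum6 (g : Fin 8 → Fin 8 → Fin 8 → Fin 8 → ℕ) (p q : ℝ) :
    ∑ v : Fin 8 × Fin 8 × Fin 8 × Fin 8 × Fin 8 × Fin 8,
      ((val v.1 : ℝ) * p + val v.2.1 * p + g v.2.2.1 v.2.2.2.1 v.2.2.2.2.1 v.2.2.2.2.2 * q) =
      2 * 8 ^ 5 * 828 * p + 64 * ((∑ a, ∑ b, ∑ c, ∑ d, g a b c d : ℕ) : ℝ) * q := by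
  have hv : ∑ a, (val a : ℝ) = 828 := by exact_mod_cast sumv
  simp only [Fintype.sum_prod_type, Finset.sum_add_distrib, Finset.sum_const, Finset.card_univ,
    Fintype.card_prod, Fintype.card_fin, nsmul_eq_mul, ← Finset.mul_sum, ← Finset.sum_mul, hv]
  push_cast
  ring

lemma lower (s : Fin 3 → ℝ) (h0 : 0 < s 0) (h1 : 0 < s 1) (h2 : s 2 = s 0) :
    (64 * 1195242 / s 0 + 64 * 509658 / s 1) / 8 ^ 6 ≤ F 2 3 law s := by
  rw [F_eq]
  gcongr
  have e1 := sum6 (fun a b c d => A (val a) (val b) (val c) (val d)) (1 / s 0) (1 / s 0)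
  have e2 := sum6 (fun a b c d => B (val a) (val b) (val c) (val d)) 0 (1 / s 1)
  rw [sumA] at e1
  rw [sumB] at e2
  have e3 : 64 * 1195242 / s 0 + 64 * 509658 / s 1 =
      (2 * 8 ^ 5 * 828 * (1 / s 0) + 64 * ((347370 : ℕ) : ℝ) * (1 / s 0)) +
      (2 * 8 ^ 5 * 828 * 0 + 64 * ((509658 : ℕ) : ℝ) * (1 / s 1)) := by
    push_cast; ring
  rw [e3, ← e1, ← e2, ← Finset.sum_add_distrib]
  refine Finset.sum_le_sum fun v _ => ?_
  obtain ⟨e, f, a, b, c, d⟩ := v
  rw [ms_eq _ _ (by positivity) (by positivity), h2]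
  show _ ≤ (val e : ℝ) / s 0 + (val f : ℝ) / s 0 +
    max (max ((val a : ℝ) / s 0 + (val b : ℝ) / s 1) ((val c : ℝ) / s 1 + (val b : ℝ) / s 1))
      ((val c : ℝ) / s 1 + (val d : ℝ) / s 0)
  have k1 := (le_max_left ((val a : ℝ) / s 0 + (val b : ℝ) / s 1)
    ((val c : ℝ) / s 1 + (val b : ℝ) / s 1)).trans (le_max_left _ ((val c : ℝ) / s 1 + (val d : ℝ) / s 0))
  have k2 := (le_max_right ((val a : ℝ) / s 0 + (val b : ℝ) / s 1)
    ((val c : ℝ) / s 1 + (val b : ℝ) / s 1)).trans (le_max_left _ ((val c : ℝ) / s 1 + (val d : ℝ) / s 0))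
  have k3 := le_max_right (max ((val a : ℝ) / s 0 + (val b : ℝ) / s 1)
    ((val c : ℝ) / s 1 + (val b : ℝ) / s 1)) ((val c : ℝ) / s 1 + (val d : ℝ) / s 0)
  simp only [A, B, div_eq_mul_inv, one_mul] at *
  split_ifs <;> push_cast <;> linarith

noncomputable def best : Fin 3 → ℝ := ![167 / 500, 166 / 500, 167 / 500]

lemma upper : F 2 3 law best =
    (2 * 8 ^ 5 * 828 * (500 / 167) + 64 * 142829424 * (500 / (166 * 167))) / 8 ^ 6 := by
  rw [F_eq]
  congr 1
  have e1 := sum6 (fun a b c d => M (val a) (val b) (val c) (val d)) (500 / 167) (500 / (166 * 167))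
  rw [sumM] at e1
  push_cast at e1
  rw [← e1]
  refine Finset.sum_congr rfl fun v _ => ?_
  obtain ⟨e, f, a, b, c, d⟩ := v
  rw [ms_eq _ _ (by simp [best]; positivity) (by simp [best]; positivity)]
  show (val e : ℝ) / (167 / 500) + (val f : ℝ) / (167 / 500) +
    max (max ((val a : ℝ) / (167 / 500) + (val b : ℝ) / (166 / 500))
      ((val c : ℝ) / (166 / 500) + (val b : ℝ) / (166 / 500)))
      ((val c : ℝ) / (166 / 500) + (val d : ℝ) / (167 / 500)) = _
  simp only [M]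
  push_cast
  rw [max_mul_of_nonneg _ _ (by norm_num), max_mul_of_nonneg _ _ (by norm_num)]
  congr 1
  · ring
  · congr 1
    · congr 1 <;> ring
    · ring

theorem result : ∃ (n m : ℕ) (μ : Measure ℝ), IsProbabilityMeasure μ ∧ (∀ᵐ x ∂μ, 0 ≤ x) ∧
    Integrable id μ ∧ ∃ s' : Fin m → ℝ, Alloc s' ∧
      ∀ s : Fin m → ℝ, Alloc s → BowlShaped s → F n m μ s' < F n m μ s := by
  refine ⟨2, 3, law, inferInstance, ?_, ?_, best, ⟨?_, ?_⟩, ?_⟩
  · unfold law
    rw [ae_map_iff (measurable_of_finite _).aemeasurable measurableSet_Ici]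
    exact Filter.Eventually.of_forall fun k => by positivity
  · unfold law
    rw [integrable_map_measure aestronglyMeasurable_id (measurable_of_finite _).aemeasurable]
    exact Integrable.of_finite
  · intro j; fin_cases j <;> simp [best]
  · simp [best, Fin.sum_univ_three]; norm_num
  · rintro s ⟨hp, hs⟩ ⟨h1, h2⟩
    have e2 : s 2 = s 0 := h1 2
    have e1 : s 0 ≤ s 1 := h2 0 1 (by decide) (by decide)
    rw [Fin.sum_univ_three, e2] at hs
    have p0 := hp 0
    have p1 := hp 1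
    refine lt_of_lt_of_le ?_ (lower s p0 p1 e2)
    rw [upper]
    gcongr ?_ / _
    have : (64 * 5114700 : ℝ) ≤ 64 * 1195242 / s 0 + 64 * 509658 / s 1 := by
      rw [div_add_div _ _ p0.ne' p1.ne', le_div_iff₀ (by positivity)]
      have hs1 : s 1 = 1 - 2 * s 0 := by linarith
      have h3 : 0 ≤ 1 - 3 * s 0 := by linarith
      rw [hs1]
      nlinarith [mul_nonneg h3 h3]
    refine lt_of_lt_of_le ?_ this
    norm_num

end Pool.Agent.Results.MP_eb4cdf_pr.Q1
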